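import Pool.Agent.Run7.h298.SC.Top

/-!
Project SC (helper229), problem MP_83fd13_an: parts WK2 and WK3, the two identities of the weak
formulation, from the change of variables (CV) and the divergence theorem (DIV).
-/

set_option autoImplicit false

open Set Filter Topology MeasureTheory

namespace Run7.h65.SC

open Pool.Agent.N229.SC Run7.h298.SC

/-- a real linear map on `ℂ` at `w` -/
lemma lin_eq (L : ℂ →L[ℝ] ℝ) (w : ℂ) : L w = w.re * L 1 + w.im * L Complex.I := by
  have h : w = w.re • (1 : ℂ) + w.im • Complex.I := by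
    apply Complex.ext <;> simp
  conv_lhs => rw [h]
  rw [map_add, map_smul, map_smul, smul_eq_mul, smul_eq_mul]

/-- the divergence theorem for a vector field which vanishes on the unit circle -/
lemma div0 (hD : S_DIV) {r : ℝ} (hr : 1 < r) {X : ℂ → ℂ}
    (hX : ContDiffOn ℝ 1 X (Metric.ball 0 r)) (h0 : ∀ z : ℂ, ‖z‖ = 1 → X z = 0) :
    ∫ z in Metric.ball (0 : ℂ) 1, ((fderiv ℝ X z 1).re + (fderiv ℝ X z Complex.I).im) = 0 := by
  have hopen : IsOpen (Metric.ball (0 : ℂ) r) := Metric.isOpen_ball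
  have hsub : Metric.closedBall (0 : ℂ) 1 ⊆ Metric.ball 0 r := Metric.closedBall_subset_ball hr
  have hsub' : Metric.ball (0 : ℂ) 1 ⊆ Metric.ball 0 r :=
    Metric.ball_subset_closedBall.trans hsub
  have hcomp : IsCompact (Metric.closedBall (0 : ℂ) 1) := isCompact_closedBall 0 1
  have hfd : ContinuousOn (fderiv ℝ X) (Metric.closedBall (0 : ℂ) 1) :=
    (hX.continuousOn_fderiv_of_isOpen hopen le_rfl).mono hsub
  obtain ⟨B, hB⟩ := hcomp.exists_bound_of_continuousOn hfd
  -- general real part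
  have key : ∀ (L : ℂ →L[ℝ] ℝ), ‖L‖ ≤ 1 → ∀ v : ℂ,
      ∫ z in Metric.ball (0 : ℂ) 1, L (fderiv ℝ X z v) = 0 := by
    intro L hL v
    obtain ⟨F, hF⟩ : ∃ F : ℂ → ℝ, F = fun z => if ‖z‖ ≤ 1 then L (X z) else 0 := ⟨_, rfl⟩
    have hF1 : ∀ z : ℂ, ‖z‖ < 1 → F z = L (X z) := fun z hz => by
      rw [hF]; exact if_pos hz.le
    have hF2 : ∀ z : ℂ, 1 ≤ ‖z‖ → F z = 0 := by
      intro z hz
      rw [hF]
      rcases hz.eq_or_lt with h | h
      · show (if ‖z‖ ≤ 1 then L (X z) else 0) = 0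
        rw [if_pos h.symm.le, h0 z h.symm, map_zero]
      · exact if_neg (not_le.2 h)
    have hFc : Continuous F := by
      rw [← continuousOn_univ]
      have h1 : ContinuousOn F (Metric.closedBall 0 1) := by
        have h2 : ContinuousOn (fun z => L (X z)) (Metric.closedBall 0 1) :=
          L.continuous.comp_continuousOn (hX.continuousOn.mono hsub)
        refine h2.congr fun z hz => ?_
        rw [mem_closedBall_zero_iff] at hz
        rw [hF]; exact if_pos hz
      have h3 : ContinuousOn F {z : ℂ | 1 ≤ ‖z‖} :=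
        (continuousOn_const (c := (0 : ℝ))).congr fun z hz => hF2 z hz
      have h4 := h1.union_of_isClosed h3 Metric.isClosed_closedBall
        (isClosed_le continuous_const continuous_norm)
      refine h4.mono fun z _ => ?_
      rcases le_total ‖z‖ 1 with h | h
      · exact Or.inl (mem_closedBall_zero_iff.2 h)
      · exact Or.inr h
    have heq : ∀ z ∈ Metric.ball (0 : ℂ) 1, fderiv ℝ F z = L.comp (fderiv ℝ X z) := by
      intro z hz
      have h1 : F =ᶠ[𝓝 z] fun z => L (X z) := by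
        filter_upwards [Metric.isOpen_ball.mem_nhds hz] with y hy
        exact hF1 y (mem_ball_zero_iff.1 hy)
      rw [h1.fderiv_eq]
      have h2 : DifferentiableAt ℝ X z :=
        (hX.differentiableOn one_ne_zero).differentiableAt (hopen.mem_nhds (hsub' hz))
      exact (L.hasFDerivAt.comp z h2.hasFDerivAt).fderiv
    have h5 := hD F B hFc hF2 ?_ ?_ v
    · rw [← h5]
      refine setIntegral_congr_fun measurableSet_ball fun z hz => ?_
      rw [heq z hz]
      rfl
    · have h6 : ContDiffOn ℝ 1 (fun z => L (X z)) (Metric.ball 0 1) :=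
        L.contDiff.comp_contDiffOn (hX.mono hsub')
      exact h6.congr fun z hz => hF1 z (mem_ball_zero_iff.1 hz)
    · intro z hz
      rw [heq z hz]
      refine (L.opNorm_comp_le _).trans ?_
      have h7 := hB z (Metric.ball_subset_closedBall hz)
      have h8 := norm_nonneg (fderiv ℝ X z)
      nlinarith [norm_nonneg L]
  have hint : ∀ (L : ℂ →L[ℝ] ℝ) (v : ℂ),
      IntegrableOn (fun z => L (fderiv ℝ X z v)) (Metric.ball (0 : ℂ) 1) := by
    intro L v
    refine IntegrableOn.mono_set ?_ Metric.ball_subset_closedBall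
    refine ContinuousOn.integrableOn_compact hcomp ?_
    exact L.continuous.comp_continuousOn (hfd.clm_apply continuousOn_const)
  have h1 := key Complex.reCLM (by rw [Complex.reCLM_norm]) 1
  have h2 := key Complex.imCLM (by rw [Complex.imCLM_norm]) Complex.I
  have h3 := integral_add (hint Complex.reCLM 1) (hint Complex.imCLM Complex.I)
  rw [h1, h2, add_zero] at h3
  exact h3

variable {ρ r r' c : ℝ} {f : ℂ → ℂ} {U : ℂ → ℝ} {S : ℂ → ℂ}

lemma inv_eq (hc : Conf ρ r f) {z : ℂ} (hz : z ∈ Metric.ball (0 : ℂ) 1) :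
    Function.invFunOn f (Metric.ball 0 1) (f z) = z := by
  have h1 := (proof_INJ ρ r f hc).2
  have h2 : InjOn f (Metric.ball 0 1) := h1.mono (Metric.ball_subset_ball hc.r_gt.le)
  exact h2.leftInvOn_invFunOn hz

lemma f_smooth (hc : Conf ρ r f) (n : WithTop ℕ∞) : ContDiffOn ℝ n f (Metric.ball 0 r) := by
  have h1 : ContDiffOn ℂ n f (Metric.ball 0 r) := hc.f_diff.contDiffOn Metric.isOpen_ball
  exact h1.restrict_scalars ℝ

lemma df_smooth (hc : Conf ρ r f) (n : WithTop ℕ∞) :
    ContDiffOn ℝ n (deriv f) (Metric.ball 0 r) := by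
  have h1 : ContDiffOn ℂ n (deriv f) (Metric.ball 0 r) :=
    (hc.f_diff.deriv Metric.isOpen_ball).contDiffOn Metric.isOpen_ball
  exact h1.restrict_scalars ℝ

lemma U_smooth (hcl : Cl r' c f U S) : ContDiffOn ℝ 1 U (Metric.ball 0 r') := by
  have h0 : (1 : WithTop ℕ∞) = 0 + 1 := (zero_add 1).symm
  rw [h0, contDiffOn_succ_iff_fderiv_of_isOpen Metric.isOpen_ball]
  refine ⟨fun z hz => (hcl.U_der z hz).differentiableAt.differentiableWithinAt,
    fun h => by simp at h, ?_⟩
  rw [contDiffOn_zero]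
  have h1 : ContinuousOn (fun z => Complex.reCLM.comp (ContinuousLinearMap.mul ℝ ℂ (S z)))
      (Metric.ball 0 r') := by
    have h2 : Continuous fun s : ℂ => Complex.reCLM.comp (ContinuousLinearMap.mul ℝ ℂ s) := by
      fun_prop
    exact h2.comp_continuousOn hcl.S_smooth.continuousOn
  exact h1.congr fun z hz => (hcl.U_der z hz).fderiv

/-- the real derivative of `f` -/
lemma f_fderiv (hc : Conf ρ r f) {z : ℂ} (hz : z ∈ Metric.ball (0 : ℂ) r) :
    HasFDerivAt f (ContinuousLinearMap.mul ℝ ℂ (deriv f z)) z := by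
  have h1 : HasDerivAt f (deriv f z) z :=
    (hc.f_diff.differentiableAt (Metric.isOpen_ball.mem_nhds hz)).hasDerivAt
  have h2 := h1.hasFDerivAt.restrictScalars ℝ
  refine h2.congr_fderiv ?_
  ext w
  simp [mul_comm]

/-- the real derivative of `f'` -/
lemma df_fderiv (hc : Conf ρ r f) {z : ℂ} (hz : z ∈ Metric.ball (0 : ℂ) r) :
    HasFDerivAt (deriv f) (ContinuousLinearMap.mul ℝ ℂ (deriv (deriv f) z)) z := by
  have h0 := hc.f_diff.deriv Metric.isOpen_ball
  have h1 : HasDerivAt (deriv f) (deriv (deriv f) z) z :=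
    (h0.differentiableAt (Metric.isOpen_ball.mem_nhds hz)).hasDerivAt
  have h2 := h1.hasFDerivAt.restrictScalars ℝ
  refine h2.congr_fderiv ?_
  ext w
  simp [mul_comm]

lemma uF_eq (hc : Conf ρ r f) {z : ℂ} (hz : z ∈ Metric.ball (0 : ℂ) 1) : uF f U (f z) = U z := by
  unfold uF
  rw [inv_eq hc hz]

lemma GF_eq (hc : Conf ρ r f) {z : ℂ} (hz : z ∈ Metric.ball (0 : ℂ) 1) :
    GF f S (f z) = starRingEnd ℂ (S z / deriv f z) := by
  unfold GF
  rw [inv_eq hc hz]

lemma cont_phi (hc : Conf ρ r f) {φ : ℂ → ℝ} (hφ : ContDiff ℝ 1 φ) :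
    ContinuousOn (fun z => φ (f z)) (Metric.ball 0 r) :=
  hφ.continuous.comp_continuousOn hc.f_diff.continuousOn

lemma cont_dphi (hc : Conf ρ r f) {φ : ℂ → ℝ} (hφ : ContDiff ℝ 1 φ) :
    ContinuousOn (fun z => fderiv ℝ φ (f z)) (Metric.ball 0 r) :=
  (hφ.continuous_fderiv one_ne_zero).comp_continuousOn hc.f_diff.continuousOn

theorem t_WK2 (hCV : S_CV) (hDIV : S_DIV) : S_WK2 := by
  intro ρ r r' c f U S hc hr1 hr' hcl φ hφ _ v
  have hsub : Metric.ball (0 : ℂ) r' ⊆ Metric.ball 0 r := Metric.ball_subset_ball hr'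
  have hsub1 : Metric.ball (0 : ℂ) 1 ⊆ Metric.ball 0 r' := Metric.ball_subset_ball hr1.le
  have hsubc : Metric.closedBall (0 : ℂ) 1 ⊆ Metric.ball 0 r' := Metric.closedBall_subset_ball hr1
  have hcomp : IsCompact (Metric.closedBall (0 : ℂ) 1) := isCompact_closedBall 0 1
  obtain ⟨X, hXd⟩ : ∃ X : ℂ → ℂ, X = fun z => ((U z - c) * φ (f z)) •
      (starRingEnd ℂ (deriv f z) * v) := ⟨_, rfl⟩
  have hUs := U_smooth hcl
  have hfs := (f_smooth hc 1).mono hsub
  have hdfs := (df_smooth hc 1).mono hsub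
  have hX : ContDiffOn ℝ 1 X (Metric.ball 0 r') := by
    rw [hXd]
    refine ContDiffOn.smul ((hUs.sub contDiffOn_const).mul (hφ.comp_contDiffOn hfs)) ?_
    exact (Complex.conjCLE.contDiff.comp_contDiffOn hdfs).mul contDiffOn_const
  have h0 : ∀ z : ℂ, ‖z‖ = 1 → X z = 0 := by
    intro z hz
    rw [hXd]
    show ((U z - c) * φ (f z)) • (starRingEnd ℂ (deriv f z) * v) = 0
    rw [hcl.U_bd z hz, sub_self, zero_mul, zero_smul]
  have h1 := div0 hDIV hr1 hX h0
  have hder : ∀ z ∈ Metric.ball (0 : ℂ) 1,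
      (fderiv ℝ X z 1).re + (fderiv ℝ X z Complex.I).im =
        ‖deriv f z‖ ^ 2 * ((U z - c) * fderiv ℝ φ (f z) v) +
          ‖deriv f z‖ ^ 2 * (@inner ℝ ℂ _ (starRingEnd ℂ (S z / deriv f z)) v * φ (f z)) := by
    intro z hz
    have hz' := hsub1 hz
    have hzr := hsub hz'
    have hne := conf_der_ne hc hzr
    have d1 := ((hcl.U_der z hz').sub_const c).mul
      (((hφ.differentiable one_ne_zero) (f z)).hasFDerivAt.comp z (f_fderiv hc hzr))
    have d2 := ((Complex.conjCLE : ℂ →L[ℝ] ℂ).hasFDerivAt.comp z (df_fderiv hc hzr)).mul_const v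
    have d3 := (d1.smul d2).fderiv
    change fderiv ℝ (fun z => ((U z - c) * φ (f z)) • (starRingEnd ℂ (deriv f z) * v)) z = _ at d3
    rw [← hXd] at d3
    have e1 : ∀ w : ℂ, fderiv ℝ X z w = ((U z - c) * φ (f z) : ℝ) *
        (starRingEnd ℂ (deriv (deriv f) z * w) * v) +
        ((U z - c) * fderiv ℝ φ (f z) (deriv f z * w) + φ (f z) * (S z * w).re : ℝ) *
          (starRingEnd ℂ (deriv f z) * v) := by
      intro w
      rw [d3]
      simp [-mul_eq_mul_left_iff]
      ring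
    rw [e1, e1]
    obtain ⟨D, hDd⟩ : ∃ D, D = fderiv ℝ φ (f z) := ⟨_, rfl⟩
    rw [← hDd]
    rw [lin_eq D (deriv f z * 1), lin_eq D (deriv f z * Complex.I), lin_eq D v]
    rw [Complex.inner]
    have e2 : ((‖deriv f z‖ ^ 2 : ℝ) : ℂ) * (v * starRingEnd ℂ (starRingEnd ℂ (S z / deriv f z))) =
        v * (S z * starRingEnd ℂ (deriv f z)) := by
      rw [Complex.conj_conj, Complex.sq_norm, Complex.normSq_eq_conj_mul_self]
      field_simp
    have e3 : ‖deriv f z‖ ^ 2 * (v * starRingEnd ℂ (starRingEnd ℂ (S z / deriv f z))).re =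
        (v * (S z * starRingEnd ℂ (deriv f z))).re := by
      rw [← e2, Complex.re_ofReal_mul]
    have e4 : ‖deriv f z‖ ^ 2 * ((v * starRingEnd ℂ (starRingEnd ℂ (S z / deriv f z))).re *
        φ (f z)) = (v * (S z * starRingEnd ℂ (deriv f z))).re * φ (f z) := by
      rw [← e3]; ring
    rw [e4, Complex.sq_norm, Complex.normSq_apply]
    simp only [Complex.add_re, Complex.add_im, Complex.mul_re, Complex.mul_im, Complex.ofReal_re,
      Complex.ofReal_im, Complex.conj_re, Complex.conj_im, Complex.I_re, Complex.I_im,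
      Complex.one_re, Complex.one_im, map_mul]
    ring
  have hA : IntegrableOn (fun z => ‖deriv f z‖ ^ 2 * ((U z - c) * fderiv ℝ φ (f z) v))
      (Metric.ball (0 : ℂ) 1) := by
    refine IntegrableOn.mono_set ?_ Metric.ball_subset_closedBall
    refine ContinuousOn.integrableOn_compact hcomp ?_
    refine ContinuousOn.mono ?_ hsubc
    refine (hdfs.continuousOn.norm.pow 2).mul ((hUs.continuousOn.sub continuousOn_const).mul ?_)
    exact ((cont_dphi hc hφ).mono hsub).clm_apply continuousOn_const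
  have hB : IntegrableOn (fun z => ‖deriv f z‖ ^ 2 *
      (@inner ℝ ℂ _ (starRingEnd ℂ (S z / deriv f z)) v * φ (f z))) (Metric.ball (0 : ℂ) 1) := by
    refine IntegrableOn.mono_set ?_ Metric.ball_subset_closedBall
    refine ContinuousOn.integrableOn_compact hcomp ?_
    refine ContinuousOn.mono ?_ hsubc
    refine (hdfs.continuousOn.norm.pow 2).mul (ContinuousOn.mul ?_ ((cont_phi hc hφ).mono hsub))
    refine ContinuousOn.inner ?_ continuousOn_const
    refine Complex.continuous_conj.comp_continuousOn ?_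
    exact hcl.S_smooth.continuousOn.div hdfs.continuousOn fun z hz => conf_der_ne hc (hsub hz)
  rw [setIntegral_congr_fun measurableSet_ball hder, integral_add hA hB] at h1
  rw [hCV ρ r f hc, hCV ρ r f hc]
  have k1 : ∫ z in Metric.ball (0 : ℂ) 1, ‖deriv f z‖ ^ 2 *
      ((uF f U (f z) - c) * fderiv ℝ φ (f z) v) = ∫ z in Metric.ball (0 : ℂ) 1,
      ‖deriv f z‖ ^ 2 * ((U z - c) * fderiv ℝ φ (f z) v) :=
    setIntegral_congr_fun measurableSet_ball fun z hz => by
      show ‖deriv f z‖ ^ 2 * ((uF f U (f z) - c) * fderiv ℝ φ (f z) v) = _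
      rw [uF_eq hc hz]
  have k2 : ∫ z in Metric.ball (0 : ℂ) 1, ‖deriv f z‖ ^ 2 *
      (@inner ℝ ℂ _ (GF f S (f z)) v * φ (f z)) = ∫ z in Metric.ball (0 : ℂ) 1,
      ‖deriv f z‖ ^ 2 * (@inner ℝ ℂ _ (starRingEnd ℂ (S z / deriv f z)) v * φ (f z)) :=
    setIntegral_congr_fun measurableSet_ball fun z hz => by
      show ‖deriv f z‖ ^ 2 * (@inner ℝ ℂ _ (GF f S (f z)) v * φ (f z)) = _
      rw [GF_eq hc hz]
  rw [k1, k2]
  linarith

theorem t_WK3 (hCV : S_CV) (hDIV : S_DIV) : S_WK3 := by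
  intro ρ r r' c f U S hc hr1 hr' hcl φ hφ _
  have hsub : Metric.ball (0 : ℂ) r' ⊆ Metric.ball 0 r := Metric.ball_subset_ball hr'
  have hsub1 : Metric.ball (0 : ℂ) 1 ⊆ Metric.ball 0 r' := Metric.ball_subset_ball hr1.le
  have hsubc : Metric.closedBall (0 : ℂ) 1 ⊆ Metric.ball 0 r' := Metric.closedBall_subset_ball hr1
  have hcomp : IsCompact (Metric.closedBall (0 : ℂ) 1) := isCompact_closedBall 0 1
  obtain ⟨X, hXd⟩ : ∃ X : ℂ → ℂ, X = fun z => (φ (f z)) • (starRingEnd ℂ (S z)) := ⟨_, rfl⟩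
  have hUs := U_smooth hcl
  have hfs := (f_smooth hc 1).mono hsub
  have hdfs := (df_smooth hc 1).mono hsub
  have hX : ContDiffOn ℝ 1 X (Metric.ball 0 r') := by
    rw [hXd]
    refine ContDiffOn.smul (hφ.comp_contDiffOn hfs) ?_
    exact Complex.conjCLE.contDiff.comp_contDiffOn hcl.S_smooth
  have h0 : ∀ z : ℂ, ‖z‖ = 1 → X z = 0 := by
    intro z hz
    rw [hXd]
    show (φ (f z)) • (starRingEnd ℂ (S z)) = 0
    rw [hcl.S_bd z hz, map_zero, smul_zero]
  have h1 := div0 hDIV hr1 hX h0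
  have hder : ∀ z ∈ Metric.ball (0 : ℂ) 1,
      (fderiv ℝ X z 1).re + (fderiv ℝ X z Complex.I).im =
        ‖deriv f z‖ ^ 2 * (fderiv ℝ φ (f z) (starRingEnd ℂ (S z / deriv f z))) -
          ‖deriv f z‖ ^ 2 * (U z * φ (f z)) := by
    intro z hz
    have hz' := hsub1 hz
    have hzr := hsub hz'
    have hne := conf_der_ne hc hzr
    have d1 := ((hφ.differentiable one_ne_zero) (f z)).hasFDerivAt.comp z (f_fderiv hc hzr)
    have hSd : DifferentiableAt ℝ S z :=
      (hcl.S_smooth.differentiableOn one_ne_zero).differentiableAt (Metric.isOpen_ball.mem_nhds hz')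
    have d2 := (Complex.conjCLE : ℂ →L[ℝ] ℂ).hasFDerivAt.comp z hSd.hasFDerivAt
    have d3 := (d1.smul d2).fderiv
    change fderiv ℝ (fun z => (φ (f z)) • (starRingEnd ℂ (S z))) z = _ at d3
    rw [← hXd] at d3
    have e1 : ∀ w : ℂ, fderiv ℝ X z w = (φ (f z) : ℝ) * (starRingEnd ℂ (fderiv ℝ S z w)) +
        (fderiv ℝ φ (f z) (deriv f z * w) : ℝ) * (starRingEnd ℂ (S z)) := by
      intro w
      rw [d3]
      simp [-mul_eq_mul_left_iff]
    have hlap := hcl.lap z hz'
    rw [e1, e1]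
    obtain ⟨D, hDd⟩ : ∃ D, D = fderiv ℝ φ (f z) := ⟨_, rfl⟩
    rw [← hDd]
    have e2 : ((‖deriv f z‖ ^ 2 : ℝ) : ℂ) * (starRingEnd ℂ (S z / deriv f z)) =
        deriv f z * starRingEnd ℂ (S z) := by
      rw [Complex.sq_norm, Complex.normSq_eq_conj_mul_self, map_div₀]
      have : starRingEnd ℂ (deriv f z) ≠ 0 := by
        rw [Ne, map_eq_zero]; exact hne
      field_simp
    have e3 : ‖deriv f z‖ ^ 2 * D (starRingEnd ℂ (S z / deriv f z)) =
        D (deriv f z * starRingEnd ℂ (S z)) := by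
      rw [← e2, ← smul_eq_mul, ← map_smul]
      congr 1
    rw [e3, lin_eq D (deriv f z * 1), lin_eq D (deriv f z * Complex.I),
      lin_eq D (deriv f z * starRingEnd ℂ (S z))]
    have e5 : ‖deriv f z‖ ^ 2 * (U z * φ (f z)) =
        -((fderiv ℝ S z 1).re - (fderiv ℝ S z Complex.I).im) * φ (f z) := by
      rw [hlap]; ring
    rw [e5]
    simp only [Complex.add_re, Complex.add_im, Complex.mul_re, Complex.mul_im, Complex.ofReal_re,
      Complex.ofReal_im, Complex.conj_re, Complex.conj_im, Complex.I_re, Complex.I_im,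
      Complex.one_re, Complex.one_im]
    ring
  have hA : IntegrableOn (fun z => ‖deriv f z‖ ^ 2 *
      (fderiv ℝ φ (f z) (starRingEnd ℂ (S z / deriv f z)))) (Metric.ball (0 : ℂ) 1) := by
    refine IntegrableOn.mono_set ?_ Metric.ball_subset_closedBall
    refine ContinuousOn.integrableOn_compact hcomp ?_
    refine ContinuousOn.mono ?_ hsubc
    refine (hdfs.continuousOn.norm.pow 2).mul ?_
    refine ((cont_dphi hc hφ).mono hsub).clm_apply ?_
    refine Complex.continuous_conj.comp_continuousOn ?_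
    exact hcl.S_smooth.continuousOn.div hdfs.continuousOn fun z hz => conf_der_ne hc (hsub hz)
  have hB : IntegrableOn (fun z => ‖deriv f z‖ ^ 2 * (U z * φ (f z)))
      (Metric.ball (0 : ℂ) 1) := by
    refine IntegrableOn.mono_set ?_ Metric.ball_subset_closedBall
    refine ContinuousOn.integrableOn_compact hcomp ?_
    refine ContinuousOn.mono ?_ hsubc
    exact (hdfs.continuousOn.norm.pow 2).mul (hUs.continuousOn.mul ((cont_phi hc hφ).mono hsub))
  rw [setIntegral_congr_fun measurableSet_ball hder, integral_sub hA hB] at h1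
  rw [hCV ρ r f hc, hCV ρ r f hc, one_mul]
  have k1 : ∫ z in Metric.ball (0 : ℂ) 1, ‖deriv f z‖ ^ 2 *
      (fderiv ℝ φ (f z) (GF f S (f z))) = ∫ z in Metric.ball (0 : ℂ) 1,
      ‖deriv f z‖ ^ 2 * (fderiv ℝ φ (f z) (starRingEnd ℂ (S z / deriv f z))) :=
    setIntegral_congr_fun measurableSet_ball fun z hz => by
      show ‖deriv f z‖ ^ 2 * (fderiv ℝ φ (f z) (GF f S (f z))) = _
      rw [GF_eq hc hz]
  have k2 : ∫ z in Metric.ball (0 : ℂ) 1, ‖deriv f z‖ ^ 2 * (uF f U (f z) * φ (f z)) =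
      ∫ z in Metric.ball (0 : ℂ) 1, ‖deriv f z‖ ^ 2 * (U z * φ (f z)) :=
    setIntegral_congr_fun measurableSet_ball fun z hz => by
      show ‖deriv f z‖ ^ 2 * (uF f U (f z) * φ (f z)) = _
      rw [uF_eq hc hz]
  rw [k1, k2]
  linarith

end Run7.h65.SC
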